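import Pool.Agent.TH752.AR.PA

/-!
Definability in models of Peano arithmetic, by instance search.
-/

set_option autoImplicit false
set_option linter.unusedSectionVars false

universe u

namespace Pool.Agent.TH754.PK

open FirstOrder FirstOrder.Language Pool.Agent.Helper227.EN Pool.Agent.TH752.AR

/-- a model of Peano arithmetic -/
class PAm (N : Type u) [LA.Structure N] [CommSemiring N] [LinearOrder N] [IsStrictOrderedRing N]
    [CanonicallyOrderedAdd N] : Prop where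
  ari : Ari LA N

/-- definable (with parameters) predicates on sequences -/
class Df {N : Type u} [LA.Structure N] (P : (ℕ → N) → Prop) : Prop where
  out : Dfn LA (Set.univ : Set N) P

/-- definable (with parameters) functions on sequences -/
class Tm {N : Type u} [LA.Structure N] (t : (ℕ → N) → N) : Prop where
  out : DF LA (Set.univ : Set N) t

section
variable {N : Type u} [LA.Structure N]

theorem Df.congr {P Q : (ℕ → N) → Prop} (h : Df P) (e : ∀ v, P v ↔ Q v) : Df Q :=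
  ⟨h.out.congr e⟩

instance iBool (p : Prop) : Df (fun _ : ℕ → N => p) := ⟨Dfn.bool p⟩

instance iAnd (P Q : (ℕ → N) → Prop) [hP : Df P] [hQ : Df Q] : Df (fun v => P v ∧ Q v) :=
  ⟨hP.out.and hQ.out⟩

instance iOr (P Q : (ℕ → N) → Prop) [hP : Df P] [hQ : Df Q] : Df (fun v => P v ∨ Q v) :=
  ⟨hP.out.or hQ.out⟩

instance iImp (P Q : (ℕ → N) → Prop) [hP : Df P] [hQ : Df Q] : Df (fun v => P v → Q v) :=
  ⟨hP.out.imp hQ.out⟩

instance iNot (P : (ℕ → N) → Prop) [hP : Df P] : Df (fun v => ¬ P v) := ⟨hP.out.not⟩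

instance iIff (P Q : (ℕ → N) → Prop) [hP : Df P] [hQ : Df Q] : Df (fun v => P v ↔ Q v) :=
  ⟨hP.out.iff hQ.out⟩

instance iEx (Q : (ℕ → N) → N → Prop) [hQ : Df (fun w => Q (fun n => w (n + 1)) (w 0))] :
    Df (fun v => ∃ x, Q v x) := ⟨hQ.out.ex⟩

instance iAll (Q : (ℕ → N) → N → Prop) [hQ : Df (fun w => Q (fun n => w (n + 1)) (w 0))] :
    Df (fun v => ∀ x, Q v x) := ⟨hQ.out.all⟩

instance iVar (i : ℕ) : Tm (fun v : ℕ → N => v i) := ⟨DF.var i⟩

instance iPar (c : N) : Tm (fun _ : ℕ → N => c) := ⟨DF.par c⟩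

instance iEq (s t : (ℕ → N) → N) [hs : Tm s] [ht : Tm t] : Df (fun v => s v = t v) :=
  ⟨Dfn.eqT hs.out ht.out⟩

instance iNe (s t : (ℕ → N) → N) [hs : Tm s] [ht : Tm t] : Df (fun v => s v ≠ t v) :=
  ⟨(Dfn.eqT hs.out ht.out).not⟩

/-- definable sets -/
class DS (S : Set N) : Prop where
  out : Df fun v => v 0 ∈ S

/-- definable binary relations -/
class DR (X : Set (N × N)) : Prop where
  out : Df fun v => (v 0, v 1) ∈ X

instance iMem (S : Set N) (t : (ℕ → N) → N) [hS : DS S] [ht : Tm t] : Df (fun v => t v ∈ S) :=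
  ⟨Dfn.rel1 (R := fun x => x ∈ S) hS.out.out ht.out⟩

instance iMem2 (X : Set (N × N)) (s t : (ℕ → N) → N) [hX : DR X] [hs : Tm s] [ht : Tm t] :
    Df (fun v => (s v, t v) ∈ X) :=
  ⟨Dfn.rel2 (R := fun x y => (x, y) ∈ X) hX.out.out hs.out ht.out⟩

theorem DS.mk' {P : N → Prop} (h : Df fun v => P (v 0)) : DS {a | P a} := ⟨h⟩

theorem DR.mk' {P : N → N → Prop} (h : Df fun v => P (v 0) (v 1)) : DR {p | P p.1 p.2} := ⟨h⟩

/-- a definable function is given by its definable graph -/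
theorem Tm.of {t : (ℕ → N) → N} (h : Df fun v => v 0 = t (fun n => v (n + 1))) : Tm t := ⟨h.out⟩

/-- composition with a definable unary function -/
theorem Tm.comp {f : N → N} (h : Df fun v => v 0 = f (v 1)) (t : (ℕ → N) → N) [ht : Tm t] :
    Tm fun v => f (t v) := by
  have h1 : Df fun v => ∃ y, y = t (fun n => v (n + 1)) ∧ v 0 = f y := by
    have h2 : Df fun w : ℕ → N => w 0 = t (fun n => w (n + 2)) :=
      ⟨Dfn.ren (R := fun v => v 0 = t (fun n => v (n + 1))) ht.out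
        (fun n => match n with | 0 => 0 | n + 1 => n + 2)⟩
    have h3 : Df fun w : ℕ → N => w 1 = f (w 0) := ⟨Dfn.ren2 (R := fun x y => x = f y) h.out 1 0⟩
    exact iEx (fun v y => y = t (fun n => v (n + 1)) ∧ v 0 = f y)
  refine Tm.of (h1.congr fun v => ?_)
  constructor
  · rintro ⟨y, h2, h3⟩
    rw [h3, h2]
  · intro h2
    exact ⟨_, rfl, h2⟩

/-- substitution of a term for the first variable -/
theorem Df.sub {Q : N → (ℕ → N) → Prop} (hQ : Df fun w => Q (w 0) (fun n => w (n + 1)))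
    (t : (ℕ → N) → N) [ht : Tm t] : Df fun v => Q (t v) v := by
  have h1 : Df fun w : ℕ → N => w 0 = t (fun n => w (n + 1)) := ⟨ht.out⟩
  have h2 := iEx (fun v y => y = t v ∧ Q y v)
  refine h2.congr fun v => ?_
  simp

end

section
variable {N : Type u} [LA.Structure N] [CommSemiring N] [LinearOrder N] [IsStrictOrderedRing N]
    [CanonicallyOrderedAdd N] [hN : PAm N]

instance iLt (s t : (ℕ → N) → N) [hs : Tm s] [ht : Tm t] : Df (fun v => s v < t v) :=
  ⟨hN.ari.lt hs.out ht.out⟩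

instance iLe (s t : (ℕ → N) → N) [hs : Tm s] [ht : Tm t] : Df (fun v => s v ≤ t v) :=
  ⟨hN.ari.le hs.out ht.out⟩

instance iAdd (s t : (ℕ → N) → N) [hs : Tm s] [ht : Tm t] : Tm (fun v => s v + t v) :=
  ⟨hN.ari.add hs.out ht.out⟩

instance iMul (s t : (ℕ → N) → N) [hs : Tm s] [ht : Tm t] : Tm (fun v => s v * t v) :=
  ⟨hN.ari.mul hs.out ht.out⟩

instance iEN (s t : (ℕ → N) → N) [hs : Tm s] [ht : Tm t] : Df (fun v => EN (s v) (t v)) :=
  ⟨hN.ari.dEN hs.out ht.out⟩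

instance iPr (s t : (ℕ → N) → N) [hs : Tm s] [ht : Tm t] : Tm (fun v => prN (s v) (t v)) := by
  unfold prN
  infer_instance

theorem pr_inj {x y x' y' : N} (h : prN x y = prN x' y') : x = x' ∧ y = y' := hN.ari.prN_inj h

theorem lt_succ {x y : N} : x < y + 1 ↔ x ≤ y := hN.ari.lt_succ

theorem succ_le {x y : N} : x + 1 ≤ y ↔ x < y := by
  rw [← not_lt (a := y), lt_succ, not_le]

theorem lt_self_succ (x : N) : x < x + 1 := lt_succ.2 le_rfl

theorem z_le (x : N) : 0 ≤ x := zero_le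

theorem eq_z_or (x : N) : x = 0 ∨ ∃ y, x = y + 1 := by
  rcases eq_or_ne x 0 with h | h
  · exact Or.inl h
  · right
    have h1 : (0 : N) + 1 ≤ x := succ_le.2 (lt_of_le_of_ne (z_le x) h.symm)
    rw [zero_add] at h1
    obtain ⟨y, hy⟩ := exists_add_of_le h1
    exact ⟨y, by rw [hy, add_comm]⟩

theorem pr_ge1 (x y : N) : x ≤ prN x y := le_add_self

theorem pr_ge2 (x y : N) : y ≤ prN x y := by
  unfold prN
  rcases eq_or_ne y 0 with h | h
  · rw [h]; exact z_le _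
  · have h1 : (0 : N) + 1 ≤ y := succ_le.2 (lt_of_le_of_ne (z_le y) h.symm)
    rw [zero_add] at h1
    calc y ≤ x + y := le_add_self
      _ = (x + y) * 1 := (mul_one _).symm
      _ ≤ (x + y) * (x + y) := mul_le_mul_of_nonneg_left (h1.trans le_add_self) (z_le _)
      _ ≤ _ := le_self_add

/-- induction -/
theorem ind (S : N → Prop) [hS : Df fun v => S (v 0)] (h0 : S 0) (hs : ∀ x, S x → S (x + 1))
    (x : N) : S x := hN.ari.ind S hS.out h0 hs x

/-- the least number principle -/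
theorem lnp (S : N → Prop) [hS : Df fun v => S (v 0)] (h : ∃ x, S x) :
    ∃ x, S x ∧ ∀ y, y < x → ¬ S y := hN.ari.lnp hS.out h

/-- strong induction -/
theorem sind (S : N → Prop) [hS : Df fun v => S (v 0)] (h : ∀ x, (∀ y, y < x → S y) → S x)
    (x : N) : S x := by
  by_contra hx
  obtain ⟨y, hy, hy'⟩ := lnp (fun x => ¬ S x) ⟨x, hx⟩
  exact hy (h y fun z hz => not_not.1 (hy' z hz))

/-- the greatest number principle -/
theorem gnp (S : N → Prop) [hS : Df fun v => S (v 0)] (h : ∃ x, S x) {n : N}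
    (hn : ∀ x, S x → x < n) : ∃ x, S x ∧ ∀ y, S y → y ≤ x := by
  obtain ⟨x, hx, hx'⟩ := lnp (fun x => ∀ y, S y → y < x) ⟨n, hn⟩
  rcases eq_z_or x with rfl | ⟨y, rfl⟩
  · obtain ⟨y, hy⟩ := h
    exact absurd (hx y hy) (not_lt_of_ge (z_le y))
  · have h1 := hx' y (lt_self_succ y)
    push Not at h1
    obtain ⟨z, hz, hz'⟩ := h1
    have h2 := lt_succ.1 (hx z hz)
    exact ⟨z, hz, fun w hw => (lt_succ.1 (hx w hw)).trans hz'⟩

/-- collection -/
theorem coll (R : N → N → Prop) [hR : Df fun v => R (v 0) (v 1)] (m : N)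
    (h : ∀ u, u < m → ∃ x, R u x) : ∃ b, ∀ u, u < m → ∃ x, x < b ∧ R u x := by
  have h1 : Df fun v => v 0 < m → R (v 0) (v 1) := inferInstance
  obtain ⟨b, hb⟩ := hN.ari.coll (R := fun u x => u < m → R u x) h1.out (fun u => by
    by_cases hu : u < m
    · obtain ⟨x, hx⟩ := h u hu
      exact ⟨x, fun _ => hx⟩
    · exact ⟨0, fun h => absurd h hu⟩) m
  exact ⟨b, fun u hu => by
    obtain ⟨x, hx, hx'⟩ := hb u hu
    exact ⟨x, hx, hx' hu⟩⟩

/-- a common bound -/
theorem coll_bd (R : N → N → Prop) [hR : Df fun v => R (v 0) (v 1)] (m : N)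
    (h : ∀ u, u < m → ∃ x, ∀ y, R u y → y < x) : ∃ b, ∀ u, u < m → ∀ y, R u y → y < b := by
  obtain ⟨b, hb⟩ := coll (fun u x => ∀ y, R u y → y < x)
    (hR := iAll (fun v y => R (v 0) y → y < v 1)
      (hQ := iImp _ _ (hP := ⟨Dfn.ren2 (R := fun x y => R x y) hR.out 1 0⟩))) m h
  refine ⟨b, fun u hu y hy => ?_⟩
  obtain ⟨x, hx, hx'⟩ := hb u hu
  exact (hx' y hy).trans hx

/-! ### Codes of finite sets -/

/-- membership in the finite set coded by `w` -/
def mem (x w : N) : Prop := ∃ n s, w = prN n s ∧ x < n ∧ EN x s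

instance iMm (s t : (ℕ → N) → N) [hs : Tm s] [ht : Tm t] : Df (fun v => mem (s v) (t v)) := by
  have h : Df fun v : ℕ → N => mem (v 0) (v 1) := by
    unfold mem
    infer_instance
  exact ⟨Dfn.rel2 (R := fun x y => mem x y) h.out hs.out ht.out⟩

theorem mem_bd (w : N) : ∃ n, ∀ x, mem x w → x < n := by
  by_cases h : ∃ n s, w = prN n s
  · obtain ⟨n, s, rfl⟩ := h
    refine ⟨n, ?_⟩
    rintro x ⟨n', s', h1, h2, h3⟩
    rw [(pr_inj h1).1]; exact h2
  · refine ⟨0, ?_⟩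
    rintro x ⟨n', s', h1, h2, h3⟩
    exact absurd ⟨_, _, h1⟩ h

theorem mem_lt {x w : N} (h : mem x w) : x < w := by
  obtain ⟨n, s, rfl, h2, h3⟩ := h
  exact lt_of_lt_of_le h2 (pr_ge1 n s)

theorem exists_mem_code (S : N → Prop) [hS : Df fun v => S (v 0)] {n : N} (hn : ∀ x, S x → x < n) :
    ∃ w, ∀ x, mem x w ↔ S x := by
  obtain ⟨s, hs⟩ := hN.ari.exists_code (S := S) hS.out n
  refine ⟨prN n s, fun x => ?_⟩
  constructor
  · rintro ⟨n', s', h1, h2, h3⟩
    obtain ⟨rfl, rfl⟩ := pr_inj h1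
    exact (hs x h2).1 h3
  · intro h
    exact ⟨n, s, rfl, hn x h, (hs x (hn x h)).2 h⟩

/-- the relation coded by `w` -/
def Rl (w : N) : Set (N × N) := {p | mem (prN p.1 p.2) w}

instance iRl (r s t : (ℕ → N) → N) [hr : Tm r] [hs : Tm s] [ht : Tm t] :
    Df (fun v => (s v, t v) ∈ Rl (r v)) :=
  iMm (fun v => prN (s v) (t v)) r

/-- bounded relation -/
def BdR (X : Set (N × N)) : Prop := ∃ n, ∀ a b, (a, b) ∈ X → a < n ∧ b < n

/-- internally finite relations -/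
def IFR (X : Set (N × N)) : Prop := DR X ∧ BdR X

/-- internally finite sets -/
def IFS (S : Set N) : Prop := DS S ∧ ∃ n, ∀ a ∈ S, a < n

theorem Rl_bd (w : N) (a b : N) (h : (a, b) ∈ Rl w) : a < w ∧ b < w :=
  ⟨lt_of_le_of_lt (pr_ge1 a b) (mem_lt h), lt_of_le_of_lt (pr_ge2 a b) (mem_lt h)⟩

instance iRlDR (w : N) : DR (Rl w) := ⟨inferInstance⟩

theorem IFR_Rl (w : N) : IFR (Rl w) := ⟨inferInstance, w, Rl_bd w⟩

theorem exists_Rl {X : Set (N × N)} (h : IFR X) : ∃ w, Rl w = X := by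
  obtain ⟨hX, n, hn⟩ := h
  have h0 : Df fun v : ℕ → N => ∃ a b, v 0 = prN a b ∧ (a, b) ∈ X := inferInstance
  have h1 : ∀ u : N, u < n → ∃ x, ∀ y, (∃ b, b < n ∧ y = prN u b) → y < x := by
    intro u _
    obtain ⟨b, hb⟩ := coll (fun b y => y = prN u b) n (fun b _ => ⟨_, rfl⟩)
    refine ⟨b, ?_⟩
    rintro y ⟨c, hc, rfl⟩
    obtain ⟨x, hx, rfl⟩ := hb c hc
    exact hx
  obtain ⟨m, hm⟩ := coll_bd (fun u y => ∃ b, b < n ∧ y = prN u b) n h1
  obtain ⟨w, hw⟩ := exists_mem_code (fun x => ∃ a b, x = prN a b ∧ (a, b) ∈ X) (n := m) (by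
    rintro x ⟨a, b, rfl, hab⟩
    exact hm a (hn a b hab).1 _ ⟨b, (hn a b hab).2, rfl⟩)
  refine ⟨w, ?_⟩
  ext ⟨a, b⟩
  show mem (prN a b) w ↔ _
  rw [hw]
  constructor
  · rintro ⟨a', b', h2, h3⟩
    obtain ⟨rfl, rfl⟩ := pr_inj h2
    exact h3
  · intro h2
    exact ⟨a, b, rfl, h2⟩

/-- the set coded by `w` -/
def St (w : N) : Set N := {x | mem x w}

instance iSt (r s : (ℕ → N) → N) [hr : Tm r] [hs : Tm s] : Df (fun v => s v ∈ St (r v)) :=
  iMm s r

instance iStDS (w : N) : DS (St w) := ⟨inferInstance⟩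

theorem IFS_St (w : N) : IFS (St w) := ⟨inferInstance, w, fun _ h => mem_lt h⟩

theorem exists_St {S : Set N} (h : IFS S) : ∃ w, St w = S := by
  obtain ⟨hS, n, hn⟩ := h
  obtain ⟨w, hw⟩ := exists_mem_code (fun x => x ∈ S) (hS := hS.out) (n := n) hn
  exact ⟨w, Set.ext hw⟩

end

end Pool.Agent.TH754.PK
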