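import Mathlib
import Pool.Agent.Helper227.EN.Lang

/-!
Multidimensional interpretations with parameters, solid theories, sequential theories,
interpretability, the arithmetical hierarchy and the theories `IΣ_n`.

The language of arithmetic `LA = {0, 1, +, ·, <}`, the theories `PA⁻` and `PA` and the induction
axiom `indAx φ` of a formula (with parameters) are those of `Pool.Agent.Helper227.EN.Lang`.
-/

set_option autoImplicit false

universe u

namespace Pool.Agent.TH754.PK

open FirstOrder FirstOrder.Language Pool.Agent.Helper227.EN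

/-- A `k`-dimensional interpretation `N` of the relational language `L₁` in the `L₂`-structure `M`:
a set of `k`-tuples (the domain), an equality and relations on `k`-tuples, all definable in `M` with
parameters from `M`, such that the interpreted equality is a congruence on the domain. -/
structure Interp (k : ℕ) (L₁ L₂ : FirstOrder.Language.{0, 0}) (M : Type u) [L₂.Structure M] where
  dom : Set (Fin k → M)
  eqv : (Fin k → M) → (Fin k → M) → Prop
  rel : ∀ {n : ℕ}, L₁.Relations n → (Fin n → Fin k → M) → Prop
  dom_def : (Set.univ : Set M).Definable L₂ dom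
  eqv_def : (Set.univ : Set M).Definable L₂
    {v : Fin 2 × Fin k → M | eqv (fun j => v (0, j)) (fun j => v (1, j))}
  rel_def : ∀ {n : ℕ} (P : L₁.Relations n),
    (Set.univ : Set M).Definable L₂ {v : Fin n × Fin k → M | rel P (fun i j => v (i, j))}
  refl : ∀ x ∈ dom, eqv x x
  symm : ∀ x ∈ dom, ∀ y ∈ dom, eqv x y → eqv y x
  trans : ∀ x ∈ dom, ∀ y ∈ dom, ∀ z ∈ dom, eqv x y → eqv y z → eqv x z
  congr : ∀ {n : ℕ} (P : L₁.Relations n) (v w : Fin n → Fin k → M), (∀ i, v i ∈ dom) →
    (∀ i, w i ∈ dom) → (∀ i, eqv (v i) (w i)) → rel P v → rel P w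

namespace Interp

variable {k : ℕ} {L₁ L₂ : FirstOrder.Language.{0, 0}} {M : Type u} [L₂.Structure M]
  (N : Interp k L₁ L₂ M)

/-- the interpreted equality on the domain -/
def setoid : Setoid N.dom where
  r x y := N.eqv x y
  iseqv := ⟨fun x => N.refl x x.2, fun {x y} h => N.symm x x.2 y y.2 h,
    fun {x y z} h h' => N.trans x x.2 y y.2 z z.2 h h'⟩

/-- the universe of the interpreted structure: the domain modulo the interpreted equality -/
def Carrier : Type u := Quotient N.setoid

/-- the class of a tuple of the domain -/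
def cls (x : N.dom) : N.Carrier := Quotient.mk N.setoid x

/-- the interpreted structure -/
instance [L₁.IsRelational] : L₁.Structure N.Carrier where
  funMap f := isEmptyElim f
  RelMap {n} P v := ∃ w : Fin n → N.dom, (∀ i, N.cls (w i) = v i) ∧
    N.rel P (fun i => (w i : Fin k → M))

/-- the tuple `x` of elements of `M` represents the element `a` of the interpreted structure -/
def rep (x : Fin k → M) (a : N.Carrier) : Prop := ∃ h : x ∈ N.dom, N.cls ⟨x, h⟩ = a

end Interp

/-- The theory `T` is solid. In every model `M` of `T`, for every interpretation `N` (of any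
dimension `k`, with parameters) of a model of `T` in `M`, every interpretation `K` (of any dimension
`l`, with parameters) in `M^N` and every isomorphism `e` from `M` onto `(M^N)^K` whose graph is
definable in `M` with parameters, there is an isomorphism `f` from `M` onto `M^N` whose graph is
definable in `M` with parameters. (The elements of `(M^N)^K` are represented by `l`-tuples of
`k`-tuples of elements of `M`.) -/
def IsSolid {L : FirstOrder.Language.{0, 0}} [L.IsRelational] (T : L.Theory) : Prop :=
  ∀ (M : Type u) [L.Structure M] [Nonempty M], M ⊨ T →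
    ∀ (k : ℕ) (N : Interp k L L M), N.Carrier ⊨ T →
      ∀ (l : ℕ) (K : Interp l L L N.Carrier) (e : M ≃[L] K.Carrier),
        (Set.univ : Set M).Definable L
          {v : Unit ⊕ (Fin l × Fin k) → M | ∃ a : Fin l → N.Carrier,
            (∀ i, N.rep (fun j => v (Sum.inr (i, j))) (a i)) ∧ K.rep a (e (v (Sum.inl ())))} →
        ∃ f : M ≃[L] N.Carrier,
          (Set.univ : Set M).Definable L
            {v : Unit ⊕ Fin k → M | N.rep (fun j => v (Sum.inr j)) (f (v (Sum.inl ())))}

/-- The theory `T` is sequential: it directly interprets adjunctive set theory. The formula `ε`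
(in two variables, without parameters) translates membership. -/
def IsSequential {L : FirstOrder.Language.{0, 0}} (T : L.Theory) : Prop :=
  ∃ ε : L.Formula (Fin 2), ∀ (M : Type u) [L.Structure M] [Nonempty M], M ⊨ T →
    (∃ x : M, ∀ y : M, ¬ ε.Realize ![y, x]) ∧
    ∀ x y : M, ∃ z : M, ∀ u : M, ε.Realize ![u, z] ↔ (ε.Realize ![u, x] ∨ u = y)

/-- The theory `T` (in a relational language) is interpretable in the theory `S`: there are a
dimension `k` and formulas `δ` (domain), `ε` (equality) and `ρ P` (translations of the relation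
symbols `P` of `T`), without parameters, which give in every model `M` of `S` an interpretation,
with nonempty domain, of a model of `T`. -/
def Interpretable {L L' : FirstOrder.Language.{0, 0}} [L.IsRelational] (T : L.Theory)
    (S : L'.Theory) : Prop :=
  ∃ (k : ℕ) (δ : L'.Formula (Fin k)) (ε : L'.Formula (Fin 2 × Fin k))
    (ρ : ∀ n, L.Relations n → L'.Formula (Fin n × Fin k)),
    ∀ (M : Type u) [L'.Structure M] [Nonempty M], M ⊨ S →
      ∃ N : Interp k L L' M, (∀ v, v ∈ N.dom ↔ δ.Realize v) ∧
        (∀ v : Fin 2 × Fin k → M,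
          N.eqv (fun j => v (0, j)) (fun j => v (1, j)) ↔ ε.Realize v) ∧
        (∀ (n : ℕ) (P : L.Relations n) (v : Fin n × Fin k → M),
          N.rel P (fun i j => v (i, j)) ↔ (ρ n P).Realize v) ∧
        Nonempty N.Carrier ∧ N.Carrier ⊨ T

/-! ### The arithmetical hierarchy -/

/-- the term `t`, regarded as a term with one more bound variable (which does not occur in it) -/
def up {α : Type} {n : ℕ} (t : LA.Term (α ⊕ Fin n)) : LA.Term (α ⊕ Fin (n + 1)) :=
  t.relabel (Sum.map id Fin.castSucc)

/-- `Δ₀` formulas: built from atomic formulas by the connectives `⊥`, `→` (which define the other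
ones) and bounded quantifiers `∀ x < t`, where `x` does not occur in `t`. -/
inductive Delta0 {α : Type} : ∀ {n : ℕ}, LA.BoundedFormula α n → Prop
  | falsum {n : ℕ} : Delta0 (⊥ : LA.BoundedFormula α n)
  | equal {n : ℕ} (s t : LA.Term (α ⊕ Fin n)) : Delta0 (s =' t)
  | lt {n : ℕ} (s t : LA.Term (α ⊕ Fin n)) : Delta0 (flt s t)
  | imp {n : ℕ} {φ ψ : LA.BoundedFormula α n} : Delta0 φ → Delta0 ψ → Delta0 (φ ⟹ ψ)
  | ball {n : ℕ} (t : LA.Term (α ⊕ Fin n)) {φ : LA.BoundedFormula α (n + 1)} : Delta0 φ →
      Delta0 (∀' (flt (bv (Fin.last n)) (up t) ⟹ φ))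

/-- The arithmetical hierarchy: `Hier true k φ` says that `φ` is a `Σ_k` formula, and
`Hier false k φ` that `φ` is a `Π_k` formula. The `Σ_0` formulas and the `Π_0` formulas are the `Δ₀`
formulas, `Σ_{k+1}` formulas are the formulas `∃ x₁ … ∃ x_m φ` with a `Π_k` formula `φ` and `Π_{k+1}`
formulas are the formulas `∀ x₁ … ∀ x_m φ` with a `Σ_k` formula `φ`, `m ≥ 0`. -/
inductive Hier {α : Type} : Bool → ℕ → ∀ {n : ℕ}, LA.BoundedFormula α n → Prop
  | zero (b : Bool) {n : ℕ} {φ : LA.BoundedFormula α n} : Delta0 φ → Hier b 0 φ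
  | step (b : Bool) {k n : ℕ} {φ : LA.BoundedFormula α n} : Hier b k φ → Hier (!b) (k + 1) φ
  | ex {k n : ℕ} {φ : LA.BoundedFormula α (n + 1)} : Hier true (k + 1) φ → Hier true (k + 1) (∃' φ)
  | all {k n : ℕ} {φ : LA.BoundedFormula α (n + 1)} :
      Hier false (k + 1) φ → Hier false (k + 1) (∀' φ)

/-- `IΣ_k`: the axioms of `PA⁻` and induction for `Σ_k` formulas (with parameters). -/
def ISigma (k : ℕ) : LA.Theory :=
  PAminus ∪ {σ | ∃ (n : ℕ) (φ : LA.BoundedFormula (Empty ⊕ Fin n) 1), Hier true k φ ∧ σ = indAx φ}

end Pool.Agent.TH754.PK
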